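import Pool.Agent.Run7.h735.IK.Surf

/-!
# The Tate conjecture over an extension with a given place: definitions
-/

set_option autoImplicit false

universe u

namespace Pool.Agent.Run7.h735.NF

open Polynomial Pool.Agent.Y134.TF Pool.Agent.TH125.Gal Pool.Agent.Run7.h735.CP

section
variable {K A : Type} [Field K] [Ring A] [Algebra K A] {Γ : Type} [Group Γ]

/-- The Tate conjecture in all codimensions `j` over the extension given by the subgroup `Δ`: every class of degree
`2 j` on which all `g` in `Δ` act by `χ g ^ j` is a combination of classes of cycles of codimension `j` with the same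
property. -/
def TateAt (χ : Γ →* Kˣ) (gr : ℕ → Submodule K A) (C : ℕ → Set A) (act : Γ →* (A ≃ₐ[K] A))
    (Δ : Subgroup Γ) : Prop :=
  ∀ j, ∀ c ∈ gr (2 * j), (∀ g ∈ Δ, act g c = (χ g : K) ^ j • c) →
    c ∈ Submodule.span K (TP.cycleClasses χ C act Δ j)

/-- The combinations of classes of divisors over the extension given by `Δ` which are in `P`. -/
def divisorsIn (χ : Γ →* Kˣ) (C : ℕ → Set A) (act : Γ →* (A ≃ₐ[K] A)) (P : Submodule K A)
    (Δ : Subgroup Γ) : Submodule K A :=
  P ⊓ Submodule.span K (TP.cycleClasses χ C act Δ 1)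

/-- The subspace `P` is stable under `Γ`. -/
def StableUnder (act : Γ →* (A ≃ₐ[K] A)) (P : Submodule K A) : Prop :=
  ∀ g : Γ, ∀ v ∈ P, act g v ∈ P

end

open Pool.Agent.H914 Pool.Agent.H914.VarClass Pool.Agent.H914.VarClass.Obj
  Pool.Agent.H914.WeilCohomology Pool.Agent.H281R3.HT

variable {k : Type u} [Field k] {𝒱 : VarClass k} {ops : CycleOps 𝒱}
  {W : WeilCohomology.{u, 0} ops} {Γ : Type} [Group Γ]

/-- The Tate conjecture for `S` over the extension given by `Δ`. -/
def TateOver (χ : Γ →* W.Kˣ) (S : PVar W Γ) (Δ : Subgroup Γ) : Prop :=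
  TateAt χ (W.gr S.X) (algClasses W S.X) S.act Δ

/-- The rank of the space of the combinations of classes of divisors over the extension given by `Δ` which are in
`S.P`. -/
noncomputable def divisorRank (χ : Γ →* W.Kˣ) (S : PVar W Γ) (Δ : Subgroup Γ) : ℕ :=
  rk (divisorsIn χ (algClasses W S.X) S.act S.P Δ)

/-- Over the extension given by `Δ` the space of the Tate classes in `S.P` has at most the dimension `B`; if the
divisors over this extension attain this number, or if `B = 0`, then the Tate conjecture holds for `S` over this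
extension. -/
structure BoundOver (χ : Γ →* W.Kˣ) (S : PVar W Γ) (Δ : Subgroup Γ) (B : ℕ) : Prop where
  bound : tateRank χ S Δ ≤ B
  attained : B ≤ divisorRank χ S Δ → TateOver χ S Δ
  zero : B = 0 → TateOver χ S Δ

/-- If `S` has the place `v` for the cyclic covering `w ^ (p ^ s) = F(x, y)` over the residue field `κ`, then
`BoundOver` holds with the number `B m` for all subgroups `Δ` which contain the `m`-th power of the Frobenius element,
for all `m`: for the extensions with a place of degree `m` above `v`. -/
def BoundsForPlaces (χ : Γ →* W.Kˣ) (S : PVar W Γ) (p s : ℕ) (κ : Type) [Field κ] [Fintype κ]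
    (F : MvPolynomial (Fin 2) κ) (B : ℕ → ℕ) : Prop :=
  ∀ v : IK.CyclicSurface χ S.act S.P p s κ F, ∀ m : ℕ, 0 < m → ∀ Δ : Subgroup Γ, v.φ ^ m ∈ Δ →
    BoundOver χ S Δ (B m)

/-- The subspace `S.P` is stable under `Γ`. -/
def IsStable (S : PVar W Γ) : Prop :=
  StableUnder S.act S.P

/-- If `S` has a place for the cyclic covering `w ^ (p ^ s) = F(x, y)` over the residue field `κ`, then the Tate
conjecture holds for `S` over all finite extensions of a degree prime to `r`, and there are no Tate classes in `S.P`
over these extensions. -/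
def NoneOverPrimeTo (χ : Γ →* W.Kˣ) (S : PVar W Γ) (p s : ℕ) (κ : Type) [Field κ] [Fintype κ]
    (F : MvPolynomial (Fin 2) κ) (r : ℕ) : Prop :=
  ∀ _v : IK.CyclicSurface χ S.act S.P p s κ F, ∀ Δ : Subgroup Γ, Δ.FiniteIndex → ¬ r ∣ Δ.index →
    TateOver χ S Δ ∧ tateRank χ S Δ = 0

end Pool.Agent.Run7.h735.NF
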