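import Pool.Agent.Run7.h735.NF.Defs
import Pool.Agent.Run7.h735.IK.Main

/-!
# The Tate conjecture over an extension with a given place
-/

set_option autoImplicit false

universe u

namespace Pool.Agent.Run7.h735.NF

open Polynomial Module Pool.Agent.Y134.TF Pool.Agent.Y130 Pool.Agent.TH125.Gal
  Pool.Agent.TH118.SG Pool.Agent.Y134.Cyc Pool.Agent.Run7.h735.TP Pool.Agent.Run7.h735.CP
  Pool.Agent.Run7.h735.CF Pool.Agent.Run7.h735.IK
open Pool.Agent.H914 Pool.Agent.H914.VarClass Pool.Agent.H914.VarClass.Obj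
  Pool.Agent.H914.WeilCohomology Pool.Agent.H281R3.HT Pool.Agent.W552

variable {k : Type u} [Field k] {𝒱 : VarClass k} {ops : CycleOps 𝒱}
  {W : WeilCohomology.{u, 0} ops} {Γ : Type} [Group Γ] {χ : Γ →* W.Kˣ} {S : PVar W Γ}

/-- The Tate conjecture over the extension given by `Δ`. -/
theorem tateOver_of (h : Cover χ S 1) {Δ : Subgroup Γ} {g : Γ} (hg : g ∈ Δ)
    (hgP : ∀ v ∈ S.P, (S.act g).toLinearMap v ∈ S.P)
    (hP' : ∀ y ∈ S.P, S.act g y = (χ g : W.K) • y → y ∈ algSpan W S.X) :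
    TateOver χ S Δ := by
  obtain ⟨A, hA, hAP, ho⟩ := h.sum
  have hA : A ≤ algSpan W S.X := hA
  have hP : S.P ≤ W.gr S.X S.X.dim := h.middle
  have hd : S.X.dim = 2 * 1 := h.dim
  have hG := h.galois
  intro j c hc hfix
  refine descend (X := S.toGVar) hG (Δ := Δ) ?_ hfix
  have h1 : c ∈ A ⊔ S.P := by rw [hAP]; exact Submodule.mem_top
  obtain ⟨a, ha, y, hy, rfl⟩ := Submodule.mem_sup.1 h1
  refine algSpan_gr (Submodule.add_mem _ (hA ha) ?_) hc
  by_cases hj : j = 1
  · subst hj
    have h2 := hfix g hg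
    rw [pow_one, map_add, smul_add] at h2
    -- the component in `P`
    have h3 : S.act g y - (χ g : W.K) • y = 0 := by
      refine perp_disjoint h (S.P.sub_mem (hgP y hy) (S.P.smul_mem _ hy)) fun z hz => ?_
      have h4 : S.act g y - (χ g : W.K) • y = (χ g : W.K) • a - S.act g a := by
        have h5 : S.act g a + S.act g y = (χ g : W.K) • a + (χ g : W.K) • y := h2
        rw [sub_eq_sub_iff_add_eq_add]
        rw [add_comm (S.act g y)]
        exact h5
      have h6 := perp_stable hG hgP (fun y hy => ho a ha y hy) z hz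
      rw [h4, sub_mul, map_sub, smul_mul_assoc, map_smul, ho a ha z hz, smul_zero, h6, sub_zero]
    exact hP' y hy (sub_eq_zero.1 h3)
  · have hp0 : y = 0 := by
      apply W.nondeg
      intro y'
      have hy' : y' ∈ A ⊔ S.P := by rw [hAP]; exact Submodule.mem_top
      obtain ⟨a', ha', p', hp', rfl⟩ := Submodule.mem_sup.1 hy'
      rw [mul_add, map_add]
      have h2 : W.tr S.X (y * a') = 0 := by
        rw [← alg_comm (hA ha')]
        exact ho a' ha' y hy
      have h3 : W.tr S.X ((a + y) * p') = 0 := by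
        refine W.tr_eq_zero (W.mul_mem hc (hP hp')) ?_
        omega
      rw [add_mul, map_add, ho a ha p' hp', zero_add] at h3
      rw [h2, h3, add_zero]
    rw [hp0]
    exact Submodule.zero_mem _

lemma span_fix {Δ : Subgroup Γ} {x : W.H S.X}
    (hx : x ∈ Submodule.span W.K (TP.cycleClasses χ (algClasses W S.X) S.act Δ 1)) :
    ∀ t ∈ Δ, S.act t x = (χ t : W.K) • x := by
  intro t ht
  induction hx using Submodule.span_induction with
  | mem a ha =>
    have := ha.2 t ht
    rwa [pow_one] at this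
  | zero => rw [map_zero, smul_zero]
  | add x y _ _ hx hy => rw [map_add, hx, hy, smul_add]
  | smul c x _ hx => rw [map_smul, hx, smul_comm]

/-- **The bound over the extension given by `Δ`.** -/
theorem boundOver_of (h : Cover χ S 1) {Δ : Subgroup Γ} {g : Γ} (hg : g ∈ Δ)
    (hgP : ∀ v ∈ S.P, (S.act g).toLinearMap v ∈ S.P) {B : ℕ} (hB : multiplicityIn χ S g ≤ B) :
    BoundOver χ S Δ B := by
  classical
  have hle : tateIn χ S.act S.P Δ ≤ eigenPart χ S.act S.P g := by
    rintro x ⟨hx, hfix⟩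
    refine ⟨?_, hx⟩
    have h2 : x ∈ Module.End.eigenspace (S.act g).toLinearMap (χ g : W.K) := by
      rw [Module.End.mem_eigenspace_iff]
      exact hfix g hg
    exact (Module.End.genEigenspace _ _).mono le_top h2
  have hatt : B ≤ divisorRank χ S Δ → TateOver χ S Δ := by
    intro hB'
    have h3 : divisorsIn χ (algClasses W S.X) S.act S.P Δ ≤ eigenPart χ S.act S.P g := by
      refine le_trans ?_ hle
      rintro x ⟨hx, hx'⟩
      exact ⟨hx, span_fix hx'⟩
    have h4 : divisorsIn χ (algClasses W S.X) S.act S.P Δ = eigenPart χ S.act S.P g :=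
      Submodule.eq_of_le_of_finrank_le h3 (hB.trans hB')
    refine tateOver_of h hg hgP fun y hy hfix => ?_
    have h5 : y ∈ eigenPart χ S.act S.P g := by
      refine ⟨?_, hy⟩
      have h2 : y ∈ Module.End.eigenspace (S.act g).toLinearMap (χ g : W.K) := by
        rw [Module.End.mem_eigenspace_iff]
        exact hfix
      exact (Module.End.genEigenspace _ _).mono le_top h2
    rw [← h4] at h5
    have h6 : TP.cycleClasses χ (algClasses W S.X) S.act Δ 1 ⊆ ⋃ j, algClasses W S.X j :=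
      fun a ha => Set.mem_iUnion.2 ⟨1, ha.1⟩
    exact Submodule.span_mono h6 h5.2
  exact ⟨(Submodule.finrank_mono hle).trans hB, hatt, fun h0 => hatt (h0 ▸ Nat.zero_le _)⟩

variable [IsAlgClosed W.K] {p s : ℕ} {κ : Type} [Field κ] [Fintype κ]

lemma act_pow_mem {φ : Γ} (hφ : ∀ v ∈ S.P, (S.act φ).toLinearMap v ∈ S.P) (i : ℕ) :
    ∀ v ∈ S.P, (S.act (φ ^ i)).toLinearMap v ∈ S.P := by
  induction i with
  | zero => intro v hv; rw [pow_zero, map_one]; exact hv
  | succ i ih =>
    intro v hv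
    rw [pow_succ', map_mul]
    exact hφ _ (ih v hv)

/-- **The general level theorem.** -/
theorem bounds_place (h : Cover χ S 1) (hp : p.Prime) (hs : 1 ≤ s) {H : (ZMod p)[X]}
    (v : CyclicPlace χ S.act S.P p s H) {m : ℕ} (hm : 0 < m) (c : ℕ → ℕ)
    (hc : CF.DividesAt p H c m) {Δ : Subgroup Γ} (hΔ : v.φ ^ m ∈ Δ) :
    BoundOver χ S Δ (CF.levelBound p s c m) :=
  boundOver_of h hΔ (act_pow_mem v.stable m) (multiplicityIn_le hp hs v hm c hc)

/-- **Iterated Kummer places.** -/
theorem bounds_iter (h : Cover χ S 1) (hp : p.Prime) (hs : 1 ≤ s) {l : List κ[X]} {t : List ℕ}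
    (hl : HasDegrees p l t) (ht : ∀ D ∈ t, ¬ p ∣ D) :
    BoundsForPlaces χ S p s κ (iter p l) (kummerBound p s t) := by
  intro v m hm Δ hΔ
  have h1 := bounds_place h hp hs (toPlace hp hs hl v) hm (mult p t) (dividesAt hp ht m hm)
    (Δ := Δ) hΔ
  rw [level_value hp s hm t ht] at h1
  exact h1

/-- A power of `φ` with exponent prime to `r` fixes a point of a finite set with a number of elements prime to `r`. -/
lemma exists_conj {r : ℕ} (hr : r.Prime) (Δ : Subgroup Γ) [Δ.FiniteIndex] (hidx : ¬ r ∣ Δ.index)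
    (φ : Γ) : ∃ (m : ℕ) (g : Γ), 0 < m ∧ ¬ r ∣ m ∧ g⁻¹ * φ ^ m * g ∈ Δ := by
  classical
  have hfact : Fact r.Prime := ⟨hr⟩
  let X := Γ ⧸ Δ
  have hX : Finite X := Subgroup.finite_quotient_of_finiteIndex
  letI : Fintype X := Fintype.ofFinite _
  let σ : Equiv.Perm X := MulAction.toPerm φ
  have hσ : ∀ (i : ℕ) (x : X), (σ ^ i) x = φ ^ i • x := by
    intro i
    induction i with
    | zero => intro x; rw [pow_zero, pow_zero, one_smul]; rfl
    | succ i ih =>
      intro x
      rw [pow_succ', Equiv.Perm.mul_apply, ih, pow_succ', mul_smul]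
      rfl
  have hpos : 0 < orderOf σ := orderOf_pos σ
  obtain ⟨a, m, hm, hma⟩ := Nat.exists_eq_pow_mul_and_not_dvd hpos.ne' r hr.ne_one
  have hm0 : 0 < m := Nat.pos_of_ne_zero (by rintro rfl; exact hm (dvd_zero r))
  have h1 : (σ ^ m) ^ r ^ a = 1 := by
    rw [← pow_mul, mul_comm, ← hma, pow_orderOf_eq_one]
  let f : Function.End X := fun x => (σ ^ m) x
  have hf : f ^ r ^ a = 1 := by
    have h2 : ∀ i : ℕ, (f ^ i : Function.End X) = fun x => ((σ ^ m) ^ i) x := by
      intro i
      induction i with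
      | zero => rfl
      | succ i ih =>
        rw [pow_succ', ih, pow_succ']
        rfl
    rw [h2, h1]
    rfl
  have h3 := Equiv.Perm.card_fixedPoints_modEq hf
  have h4 : Fintype.card X = Δ.index := by
    rw [← Nat.card_eq_fintype_card]
    rfl
  have h5 : Nonempty (Function.fixedPoints f) := by
    by_contra hne
    rw [not_nonempty_iff] at hne
    rw [Fintype.card_eq_zero (α := Function.fixedPoints f)] at h3
    rw [h4] at h3
    exact hidx (Nat.modEq_zero_iff_dvd.1 h3)
  obtain ⟨x, hx⟩ := h5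
  obtain ⟨g, rfl⟩ := QuotientGroup.mk_surjective x
  refine ⟨m, g, hm0, hm, ?_⟩
  have h6 : φ ^ m • (QuotientGroup.mk g : X) = QuotientGroup.mk g := by
    rw [← hσ]
    exact hx
  have h7 : (QuotientGroup.mk (φ ^ m * g) : X) = QuotientGroup.mk g := h6
  have h8 := QuotientGroup.eq.1 h7.symm
  rwa [← mul_assoc] at h8

/-- **The extensions of degree prime to `r`.** -/
theorem tate_primeTo (h : Cover χ S 1) (hp : p.Prime) (hs : 1 ≤ s) {l : List κ[X]} {t : List ℕ}
    (hl : HasDegrees p l t) (ht : ∀ D ∈ t, ¬ p ∣ D) (hstab : ∀ g : Γ, ∀ v ∈ S.P, S.act g v ∈ S.P)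
    (v : CyclicSurface χ S.act S.P p s κ (iter p l)) {r : ℕ} (hr : r.Prime)
    (htr : ∀ D ∈ t, ∃ i, D = r ^ i) (Δ : Subgroup Γ) [Δ.FiniteIndex] (hidx : ¬ r ∣ Δ.index) :
    TateOver χ S Δ ∧ tateRank χ S Δ = 0 := by
  classical
  obtain ⟨m, g, hm, hrm, hg⟩ := exists_conj hr Δ hidx v.φ
  have h1 := boundAt h hp hs hl ht v hm
  have h2 : kummerBound p s t m = 0 := by
    apply kummerBound_zero
    intro D hD
    obtain ⟨i, rfl⟩ := htr D hD
    exact Nat.Coprime.pow_right i ((Nat.Prime.coprime_iff_not_dvd hr).2 hrm).symm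
  rw [h2] at h1
  have h3 : eigenPart χ S.act S.P (v.φ ^ m) = ⊥ :=
    Submodule.finrank_eq_zero.1 (Nat.le_zero.1 h1.bound)
  have h4 : ∀ y ∈ S.P, S.act (g⁻¹ * v.φ ^ m * g) y = (χ (g⁻¹ * v.φ ^ m * g) : W.K) • y → y = 0 := by
    intro y hy hfix
    have h5 : χ (g⁻¹ * v.φ ^ m * g) = χ (v.φ ^ m) := by
      rw [map_mul, map_mul, map_inv, mul_comm, ← mul_assoc, mul_inv_cancel, one_mul]
    rw [h5] at hfix
    have h6 : S.act (v.φ ^ m) (S.act g y) = (χ (v.φ ^ m) : W.K) • S.act g y := by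
      have h7 := congrArg (S.act g) hfix
      rw [map_smul, ← AlgEquiv.mul_apply, ← map_mul] at h7
      rw [← AlgEquiv.mul_apply, ← map_mul]
      rw [show g * (g⁻¹ * v.φ ^ m * g) = v.φ ^ m * g by group] at h7
      exact h7
    have h8 : S.act g y ∈ eigenPart χ S.act S.P (v.φ ^ m) := by
      refine ⟨?_, hstab g y hy⟩
      have h9 : S.act g y ∈ Module.End.eigenspace (S.act (v.φ ^ m)).toLinearMap
          (χ (v.φ ^ m) : W.K) := by
        rw [Module.End.mem_eigenspace_iff]
        exact h6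
      exact (Module.End.genEigenspace _ _).mono le_top h9
    rw [h3, Submodule.mem_bot] at h8
    exact (map_eq_zero_iff _ (S.act g).injective).1 h8
  refine ⟨tateOver_of h hg (fun v hv => hstab _ v hv) fun y hy hfix => ?_, ?_⟩
  · rw [h4 y hy hfix]
    exact Submodule.zero_mem _
  · change finrank W.K (tateIn χ S.act S.P Δ) = 0
    rw [Submodule.finrank_eq_zero, eq_bot_iff]
    rintro x ⟨hx, hfix⟩
    rw [Submodule.mem_bot]
    exact h4 x hx (hfix _ hg)

end Pool.Agent.Run7.h735.NF
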